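import Pool.Agent.Lib.MP_6d0ce9_ag.An.Main
import Pool.Agent.Lib.MP_6d0ce9_ag.TTDefs

/-!
# Any t-structure suffices, up to the vanishing conjecture of Beilinson and Soulé

Example to keep in mind: `T` is the category of constructible motives with rational coefficients
over a field of characteristic zero, `R i` are realisations, `W = ℚ(1)[2]`, `S` is the class of
Chow motives, and the polarised objects are the motives `h(X)(d/2)[d]` with `X` smooth projective
of even dimension `d`.
-/

universe w w' v u

open CategoryTheory MonoidalCategory Pretriangulated Triangulated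
open Pool.Agent.Lib.MotT

namespace Pool.Agent.Lib.MP_6d0ce9_ag.Old.AnyStructure

/-- Let `T` be a rigid tensor triangulated category with connected unit and split idempotents.
Let `R i` be realisations of `T` over fields of characteristic zero such that for all `i` the
objects concentrated in one and the same degree for `R o` and `R i` generate `T`. Let `W` be an
invertible object of `T`, concentrated in degree `-2` for `R o`, with a nonzero morphism
`𝟙 ⟶ W[-1]` (in the example: a unit of the field which is not a root of unity). Let `S` be a class
of objects with the properties of the class of Chow motives: besides `IsChowClass` we assume that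
`S` is stable under retracts and that for every `A` in `S` some twist of `A` is a retract of a
twist of an object polarised with respect to `W`.

1. If `R o` is conservative and `T` has *any* non-degenerate tensor compatible t-structure, then
the objects of `S` have Chow-Künneth decompositions, and for `A` in `S` concentrated in degree
`j ≥ 0` and `n ≤ j` every nonzero `𝟙 ⟶ A[n]` has a nonzero composition with some `A[n] ⟶ 𝟙`
(so there are no such morphisms unless `n = j = 0`).

2. `T` has a non-degenerate tensor compatible t-structure for which all the `R i` are t-exact if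
and only if `R o` is conservative, `T` has *any* non-degenerate tensor compatible t-structure, and
the conjecture of Beilinson and Soulé holds: for `A` in `S` concentrated in degree `j < 0` and
`n ≤ j` there are no nonzero morphisms `𝟙 ⟶ A[n]`. -/
theorem result {T : Type u} [Category.{v} T] [Preadditive T] [Limits.HasZeroObject T]
    [HasShift T ℤ] [∀ n : ℤ, (shiftFunctor T n).Additive] [Pretriangulated T]
    [MonoidalCategory T] [SymmetricCategory T] [RigidTT T]
    {I : Type w'} {F : I → Type w} [∀ i, Field (F i)] [∀ i, CharZero (F i)]
    (R : ∀ i, Realization T (F i)) (o : I) (hcom : ∀ i, (R o).CommonGen (R i))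
    (W W' : T) (e : W ⊗ W' ≅ 𝟙_ T) (hW : (R o).ConcentratedIn (-2) W)
    (u : 𝟙_ T ⟶ W⟦(-1 : ℤ)⟧) (hu : u ≠ 0)
    (S : ObjectProperty T) (hS : IsChowClass S) [S.IsStableUnderRetracts]
    (hpol : PolarisedGenerated (R o) W S) :
    (((R o).Conservative ∧ ∃ t : TStructure T, Nondegenerate t ∧ TensorCompatible t) →
      ChowKunneth (R o) S ∧ RatEqNumFromZero (R o) S) ∧
    ((∃ t : TStructure T, Nondegenerate t ∧ TensorCompatible t ∧ ∀ i, (R i).TExact t) ↔
      (R o).Conservative ∧ (∃ t : TStructure T, Nondegenerate t ∧ TensorCompatible t) ∧
        BeilinsonSoule (R o) S) := by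
  have := RigidTT.octahedron (T := T)
  let _ := RigidTT.commShift (T := T)
  have := RigidTT.exact_left (T := T)
  have := RigidTT.split (T := T)
  have hrig := RigidTT.rigid (T := T)
  have hconn := RigidTT.connected (T := T)
  have key : ((R o).Conservative ∧ ∃ t : TStructure T, Nondegenerate t ∧ TensorCompatible t) →
      ChowKunneth (R o) S ∧ RatEqNumFromZero (R o) S := by
    rintro ⟨hcons, t, hnd, ht⟩
    exact of_any hnd ht hrig hcons e hW u hu hS hpol
  refine ⟨key, ?_, ?_⟩
  · rintro ⟨t, hnd, ht, hR⟩
    have hcons := Realization.conservative_of_exact hnd ht hrig hconn (hR o)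
    have hinj := Realization.injectiveOnPure_of_coconnective
      (Realization.injectiveOnCoconnective_of_exact hnd ht hrig hconn (hR o))
    exact ⟨hcons, ⟨t, hnd, ht⟩,
      beilinsonSoule_of_ratEqNum hrig hS (ratEqNumUpTo_of_inj hrig hinj hS)⟩
  · rintro ⟨hcons, ht, hBS⟩
    obtain ⟨hCK, hnum⟩ := key ⟨hcons, ht⟩
    obtain ⟨t, hnd, ht, hR⟩ := exists_t_of_chowKunneth hrig hconn (hcom o) hS hCK
      (ratEqNumUpTo_iff hnum hBS)
    exact exists_t_of_inj hrig hconn R o hcom (Realization.injectiveOnPure_of_coconnective
      (Realization.injectiveOnCoconnective_of_exact hnd ht hrig hconn hR))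

end Pool.Agent.Lib.MP_6d0ce9_ag.Old.AnyStructure
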