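import Pool.Agent.Lib.MP_6d0ce9_ag.St.Pos
import Pool.Agent.Lib.MP_6d0ce9_ag.St.Uniq
import Pool.Agent.Lib.MP_6d0ce9_ag.CritDefs

/-!
# Exactness of the realisations is automatic

Example to keep in mind: `T` is the category of constructible motives with rational coefficients
over a field of characteristic zero, `R` and the `S i` are realisations, `W = ℚ(1)[2]`, and the
polarised objects are the motives `h(X)(d/2)[d]` with `X` smooth projective of even
dimension `d`.
-/

universe w w' x v u

open CategoryTheory MonoidalCategory Pretriangulated Triangulated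
open Pool.Agent.Lib.MotT

namespace Pool.Agent.Lib.MP_6d0ce9_ag.Old.Automatic1

/-- Let `T` be a rigid tensor triangulated category with connected unit, and `R` and `S i`
realisations of `T` over fields of characteristic zero such that for every `i` the objects
concentrated in one and the same degree for `R` and `S i` generate `T`. Let `W` be an object with
`H^j(W) ≠ 0` exactly for `j = -2` such that the objects which are polarised with respect to `W`
generate `T`. Then for every non-degenerate tensor compatible t-structure `t` on `T` all the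
realisations `R` and `S i` are t-exact if and only if `R` is conservative and `W[-2]` lies in the
heart of `t`.

Hence there is a non-degenerate tensor compatible t-structure on `T` for which all the
realisations are t-exact if and only if `R` is conservative and some non-degenerate tensor
compatible t-structure on `T` has `W[-2]` in its heart; it is then unique. -/
theorem result {T : Type u} [Category.{v} T] [Preadditive T] [Limits.HasZeroObject T]
    [HasShift T ℤ] [∀ n : ℤ, (shiftFunctor T n).Additive] [Pretriangulated T]
    [IsTriangulated T] [MonoidalCategory T] [SymmetricCategory T]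
    [∀ X : T, (tensorLeft X).CommShift ℤ] [∀ X : T, (tensorLeft X).IsTriangulated]
    (hrig : IsRigid T) (hconn : ConnectedUnit T)
    {F : Type w} [Field F] [CharZero F] (R : Realization T F)
    {I : Type x} {F' : I → Type w'} [∀ i, Field (F' i)] [∀ i, CharZero (F' i)]
    (S : ∀ i, Realization T (F' i)) (hcom : ∀ i, R.CommonGen (S i))
    (W : T) (hW : R.ConcentratedIn (-2) W) (hW' : ¬ R.Van (-2) W)
    (hpol : ObjectProperty.IsClassicalTriangulatedGenerator
      (fun M : T => R.IsPolarised W M)) :
    (∀ t : TStructure T, Nondegenerate t → TensorCompatible t →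
      ((R.TExact t ∧ ∀ i, (S i).TExact t) ↔ R.Conservative ∧ t.heart (W⟦(-2 : ℤ)⟧))) ∧
    List.TFAE [
      ∃ t : TStructure T, Nondegenerate t ∧ TensorCompatible t ∧
        R.TExact t ∧ ∀ i, (S i).TExact t,
      ∃! t : TStructure T, Nondegenerate t ∧ TensorCompatible t ∧
        R.TExact t ∧ ∀ i, (S i).TExact t,
      R.Conservative ∧ ∃ t : TStructure T, Nondegenerate t ∧ TensorCompatible t ∧
        t.heart (W⟦(-2 : ℤ)⟧)] := by
  have key : ∀ t : TStructure T, Nondegenerate t → TensorCompatible t →
      ((R.TExact t ∧ ∀ i, (S i).TExact t) ↔ R.Conservative ∧ t.heart (W⟦(-2 : ℤ)⟧)) := by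
    intro t hnd ht
    constructor
    · rintro ⟨hR, -⟩
      have hcons := Realization.conservative_of_exact hnd ht hrig hconn hR
      have h3 : t.IsLE W (-2) := Realization.isLE_of_van hR hcons fun i hi => hW i (by lia)
      have h4 : t.IsGE W (-2) := Realization.isGE_of_van hR hcons fun i hi => hW i (by lia)
      exact ⟨hcons, (heart_iff t _).2
        ⟨t.isLE_shift W (-2) (-2) 0 (by lia), t.isGE_shift W (-2) (-2) 0 (by lia)⟩⟩
    · rintro ⟨hcons, hheart⟩
      obtain ⟨h1, h2⟩ := (heart_iff t _).1 hheart
      have h3 : t.IsLE W (-2) := t.isLE_of_shift W (-2) (-2) 0 (by lia)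
      have h4 : t.IsGE W (-2) := t.isGE_of_shift W (-2) (-2) 0 (by lia)
      have hR : R.TExact t :=
        Realization.texact_of_polarised hnd ht hrig hcons h3 h4 hW' hpol
      refine ⟨hR, fun i => (S i).texact_of_gen ht ?_⟩
      have hle : (fun G : T => ∃ n : ℤ, R.ConcentratedIn n G ∧ (S i).ConcentratedIn n G) ≤
          Sorting.anyOf ((S i).DD t) := by
        rintro G ⟨n, h1, h2⟩
        have h3 : t.IsLE G n := Realization.isLE_of_van hR hcons fun i hi => h1 i (by lia)
        have h4 : t.IsGE G n := Realization.isGE_of_van hR hcons fun i hi => h1 i (by lia)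
        have h5 : t.heart (G⟦n⟧) := (heart_iff t _).2
          ⟨t.isLE_shift G n n 0 (by lia), t.isGE_shift G n n 0 (by lia)⟩
        exact ⟨n, h3, h4, h2, Realization.extPower_of_heart hnd ht hrig hconn hR h5⟩
      have hgen := hcom i
      rw [Realization.CommonGen, ObjectProperty.isClassicalTriangulatedGenerator_iff,
        eq_top_iff] at hgen
      rw [ObjectProperty.isClassicalTriangulatedGenerator_iff, eq_top_iff]
      exact hgen.trans (ObjectProperty.monotone_triangEnvelope hle)
  refine ⟨key, ?_⟩
  tfae_have 2 → 1 := fun h => h.exists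
  tfae_have 1 → 3 := by
    rintro ⟨t, hnd, ht, hR⟩
    exact ⟨((key t hnd ht).1 hR).1, t, hnd, ht, ((key t hnd ht).1 hR).2⟩
  tfae_have 3 → 2 := by
    rintro ⟨hcons, t, hnd, ht, hheart⟩
    have hR := (key t hnd ht).2 ⟨hcons, hheart⟩
    refine ⟨t, ⟨hnd, ht, hR⟩, ?_⟩
    rintro t' ⟨-, -, hR', -⟩
    exact Realization.tstructure_ext hR' hR.1 hcons
  tfae_finish

end Pool.Agent.Lib.MP_6d0ce9_ag.Old.Automatic1
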