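import Pool.Agent.Lib.MP_6d0ce9_ag.St.Pos
import Pool.Agent.Lib.MP_6d0ce9_ag.St.Uniq
import Pool.Agent.Lib.MP_6d0ce9_ag.CritDefs
import Pool.Agent.Lib.MP_6d0ce9_ag.Spread
import Pool.Agent.Lib.MP_6d0ce9_ag.TTDefs

/-!
# Exactness of the realisations is automatic, and descends to the prime field

Example to keep in mind: `T` is the category of constructible motives with rational coefficients
over a field `K` of characteristic zero, `R i` are realisations, `T₀` is the category over the
prime field, `W = ℚ(1)[2]`, and the polarised objects are the motives `h(X)(d/2)[d]` with `X`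
smooth projective of even dimension `d`.
-/

universe w w' v u

open CategoryTheory MonoidalCategory Pretriangulated Triangulated
open Pool.Agent.Lib.MotT

namespace Pool.Agent.Lib.MP_6d0ce9_ag.Old.Automatic2

/-- Let `T` and `T₀` be rigid tensor triangulated categories with connected units and split
idempotents. Let `R i` be realisations of `T` over fields of characteristic zero such that for all
`i` the objects concentrated in one and the same degree for `R o` and `R i` generate `T`. Let
`R₀` be a realisation of `T₀` over the same field as `R o` such that the objects concentrated in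
one degree generate `T₀`. Let `W` be an object of `T₀` with `H^j(W) ≠ 0` exactly for `j = -2` such
that the objects which are polarised with respect to `W` generate `T₀`. Suppose that there is a
faithful base change functor from `T₀` to `T` compatible with shifts, unit objects and with `R₀`
and `R o`, and that the morphisms from the unit object of `T` spread out to lisse objects of
models over `T₀`.

Then for every non-degenerate tensor compatible t-structure `t` on `T₀` the realisation `R₀` is
t-exact if and only if `R₀` is conservative and `W[-2]` lies in the heart of `t`, and the following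
are equivalent.

1. `T` has a non-degenerate tensor compatible t-structure for which all the `R i` are t-exact.
2. `T` has exactly one such t-structure.
3. `T₀` has a non-degenerate tensor compatible t-structure for which `R₀` is t-exact.
4. `R₀` is conservative and `T₀` has a non-degenerate tensor compatible t-structure whose heart
contains `W[-2]`. -/
theorem result {T : Type u} [Category.{v} T] [Preadditive T] [Limits.HasZeroObject T]
    [HasShift T ℤ] [∀ n : ℤ, (shiftFunctor T n).Additive] [Pretriangulated T]
    [MonoidalCategory T] [SymmetricCategory T] [RigidTT T]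
    {I : Type w'} {F : I → Type w} [∀ i, Field (F i)] [∀ i, CharZero (F i)]
    (R : ∀ i, Realization T (F i)) (o : I) (hcom : ∀ i, (R o).CommonGen (R i))
    {T₀ : Type u} [Category.{v} T₀] [Preadditive T₀] [Limits.HasZeroObject T₀]
    [HasShift T₀ ℤ] [∀ n : ℤ, (shiftFunctor T₀ n).Additive] [Pretriangulated T₀]
    [MonoidalCategory T₀] [SymmetricCategory T₀] [RigidTT T₀]
    (R₀ : Realization T₀ (F o)) (hcom₀ : R₀.CommonGen R₀)
    (W : T₀) (hW : R₀.ConcentratedIn (-2) W) (hW' : ¬ R₀.Van (-2) W)
    (hpol : ObjectProperty.IsClassicalTriangulatedGenerator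
      (fun M : T₀ => R₀.IsPolarised W M))
    (bc : BaseChange R₀ (R o)) (hs : SpreadsOut (R o) R₀) :
    (∀ t : TStructure T₀, Nondegenerate t → TensorCompatible t →
      (R₀.TExact t ↔ R₀.Conservative ∧ t.heart (W⟦(-2 : ℤ)⟧))) ∧
    List.TFAE [
      ∃ t : TStructure T, Nondegenerate t ∧ TensorCompatible t ∧ ∀ i, (R i).TExact t,
      ∃! t : TStructure T, Nondegenerate t ∧ TensorCompatible t ∧ ∀ i, (R i).TExact t,
      ∃ t : TStructure T₀, Nondegenerate t ∧ TensorCompatible t ∧ R₀.TExact t,
      R₀.Conservative ∧ ∃ t : TStructure T₀, Nondegenerate t ∧ TensorCompatible t ∧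
        t.heart (W⟦(-2 : ℤ)⟧)] := by
  have := RigidTT.octahedron (T := T)
  let _ := RigidTT.commShift (T := T)
  have := RigidTT.exact_left (T := T)
  have := RigidTT.split (T := T)
  have hrig := RigidTT.rigid (T := T)
  have hconn := RigidTT.connected (T := T)
  have := RigidTT.octahedron (T := T₀)
  let _ := RigidTT.commShift (T := T₀)
  have := RigidTT.exact_left (T := T₀)
  have := RigidTT.split (T := T₀)
  have hrig₀ := RigidTT.rigid (T := T₀)
  have hconn₀ := RigidTT.connected (T := T₀)
  have := bc.comm
  have := bc.preservesZero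
  have := bc.faithful
  have key : ∀ t : TStructure T₀, Nondegenerate t → TensorCompatible t →
      (R₀.TExact t ↔ R₀.Conservative ∧ t.heart (W⟦(-2 : ℤ)⟧)) := by
    intro t hnd ht
    constructor
    · intro hR
      have hcons := Realization.conservative_of_exact hnd ht hrig₀ hconn₀ hR
      have h3 : t.IsLE W (-2) := Realization.isLE_of_van hR hcons fun i hi => hW i (by lia)
      have h4 : t.IsGE W (-2) := Realization.isGE_of_van hR hcons fun i hi => hW i (by lia)
      exact ⟨hcons, (heart_iff t _).2
        ⟨t.isLE_shift W (-2) (-2) 0 (by lia), t.isGE_shift W (-2) (-2) 0 (by lia)⟩⟩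
    · rintro ⟨hcons, hheart⟩
      obtain ⟨h1, h2⟩ := (heart_iff t _).1 hheart
      have h3 : t.IsLE W (-2) := t.isLE_of_shift W (-2) (-2) 0 (by lia)
      have h4 : t.IsGE W (-2) := t.isGE_of_shift W (-2) (-2) 0 (by lia)
      exact Realization.texact_of_polarised hnd ht hrig₀ hcons h3 h4 hW' hpol
  refine ⟨key, ?_⟩
  tfae_have 2 → 1 := fun h => h.exists
  tfae_have 1 → 3 := by
    rintro ⟨t, hnd, ht, hR⟩
    obtain ⟨t₀, h1, h2, h3⟩ := exists_t_of_inj hrig₀ hconn₀ (fun _ : Unit => R₀) ()
      (fun _ => hcom₀) (Realization.injectiveOnPure_of_coconnective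
        (injectiveOnCoconnective_of_baseChange bc.fn bc.iso bc.unitIso
          (Realization.injectiveOnCoconnective_of_exact hnd ht hrig hconn (hR o))))
    exact ⟨t₀, h1, h2, h3 ()⟩
  tfae_have 3 → 4 := by
    rintro ⟨t, hnd, ht, hR⟩
    exact ⟨((key t hnd ht).1 hR).1, t, hnd, ht, ((key t hnd ht).1 hR).2⟩
  tfae_have 4 → 2 := by
    rintro ⟨hcons, t₀, hnd₀, ht₀, hheart⟩
    have hR₀ := (key t₀ hnd₀ ht₀).2 ⟨hcons, hheart⟩
    obtain ⟨t, hnd, ht, hR⟩ := exists_t_of_inj hrig hconn R o hcom
      (Realization.injectiveOnPure_of_coconnective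
        (Realization.injectiveOnCoconnective_of_spreadsOut hs
          (Realization.injectiveOnCoconnective_of_exact hnd₀ ht₀ hrig₀ hconn₀ hR₀)))
    refine ⟨t, ⟨hnd, ht, hR⟩, ?_⟩
    rintro t' ⟨-, -, hR'⟩
    exact Realization.tstructure_ext (hR' o) (hR o)
      (Realization.conservative_of_exact hnd ht hrig hconn (hR o))
  tfae_finish

end Pool.Agent.Lib.MP_6d0ce9_ag.Old.Automatic2
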