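import Pool.Agent.Lib.MP_6d0ce9_ag.Crit

/-!
# A criterion for the existence of the t-structure

`T` is a rigid tensor triangulated category with connected unit and split idempotents, for
instance the category of constructible motives over a field of any characteristic with
rational coefficients, and `R i` is a family of realisations of `T`, for instance the `l`-adic
realisations for all primes `l` different from the characteristic.
-/

universe w w' v u

open CategoryTheory MonoidalCategory Pretriangulated Triangulated
open Pool.Agent.Lib.MotT

namespace Pool.Agent.Results.MP_6d0ce9_ag.Criterion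

/-- Let `P` be a class of objects of `T` which contains the unit and is stable under tensor
products, whose members are concentrated in degree `0` for one of the realisations, `R o`, and
such that the objects `A ⊗ B'`, with `A` and `B` in `P` and `B'` the dual of `B`, generate `T`.
The following are equivalent.

1. There is a non-degenerate tensor compatible t-structure on `T` for which all the `R i` are
   t-exact.
2. `R o` is conservative; for `A` and `B` in `P` there are no nonzero morphisms `A ⟶ B[n]` with
   `n < 0`, and the `H^0` of `R o` is injective on the morphisms `A ⟶ B`; and for every `i` the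
   objects which are concentrated in one and the same degree for `R o` and `R i` generate `T`.
3. If `A` and `B` are in `P`, `B'` is the dual of `B` and `s : A ⊗ B' ⟶ 𝟙` is nonzero, then the
   morphism `δ : 𝟙 ⟶ N` to the cone `N` of `s` is tensor nilpotent; for `A` and `B` in `P` there
   are no nonzero morphisms `A ⟶ B[n]` with `n < 0`; and for every `i` the objects which are
   concentrated in one and the same degree for `R o` and `R i` generate `T`. -/
theorem result {T : Type u} [Category.{v} T] [Preadditive T] [Limits.HasZeroObject T]
    [HasShift T ℤ] [∀ n : ℤ, (shiftFunctor T n).Additive] [Pretriangulated T]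
    [IsTriangulated T] [MonoidalCategory T] [SymmetricCategory T]
    [∀ X : T, (tensorLeft X).CommShift ℤ] [∀ X : T, (tensorLeft X).IsTriangulated]
    [IsIdempotentComplete T] (hrig : IsRigid T) (hconn : ConnectedUnit T)
    {I : Type w'} {F : I → Type w} [∀ i, Field (F i)] [∀ i, CharZero (F i)]
    (R : ∀ i, Realization T (F i)) (o : I) (P : ObjectProperty T) (hP1 : P (𝟙_ T))
    (hPt : ∀ A B : T, P A → P B → P (A ⊗ B))
    (hP0 : ∀ A : T, P A → (R o).ConcentratedIn 0 A)
    (hgen : ObjectProperty.IsClassicalTriangulatedGenerator fun G : T =>
      ∃ A B B' : T, P A ∧ P B ∧ Nonempty (ExactPairing B B') ∧ Nonempty (G ≅ A ⊗ B')) :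
    List.TFAE [
      ∃ t : TStructure T, Nondegenerate t ∧ TensorCompatible t ∧ ∀ i, (R i).TExact t,
      (R o).Conservative ∧ NegVanishing P ∧ (R o).FaithfulOn P ∧ ∀ i, (R o).CommonGen (R i),
      ConesNilpotent P ∧ NegVanishing P ∧ ∀ i, (R o).CommonGen (R i)] :=
  criterion hrig hconn R o P hP1 hPt hP0 hgen

end Pool.Agent.Results.MP_6d0ce9_ag.Criterion
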