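import Pool.Agent.Lib.MP_6d0ce9_ag.Desc

/-!
# Transfer of the t-structure between fields

Example to keep in mind: `T` is the category of constructible motives with rational
coefficients over a field `k`, and `T'` the one over an algebraically closed field `K` of the same
characteristic and of infinite transcendence degree over the prime field, for instance the field
of complex numbers. Every morphism of `T` is defined over a finitely generated subfield `k₀` of
`k`, the field `k₀` embeds into `K`, and the base change functor from `k₀` to `K` is faithful.
-/

universe w w' v u

open CategoryTheory MonoidalCategory Pretriangulated Triangulated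
open Pool.Agent.Lib.MotT

namespace Pool.Agent.Lib.MP_6d0ce9_ag.Old.Descent

/-- Let `T'` be a rigid tensor triangulated category with connected unit which has a
non-degenerate tensor compatible t-structure `t'` for which the realisation `R'` is t-exact. Let
`T` be a rigid tensor triangulated category with connected unit and split idempotents, with
realisations `R i`, generated by the objects `A ⊗ B'` for `A`, `B` in a class `P` as in the
criterion, and such that for all `i` the objects concentrated in one and the same degree for
`R o` and `R i` generate `T`. If every morphism of `T` comes from a category `C` with a functor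
to `T` and a faithful functor to `T'` for which `R o` and `R'` have isomorphic restrictions to
`C`, then `T` has a non-degenerate tensor compatible t-structure for which all the `R i` are
t-exact. -/
theorem result {T : Type u} [Category.{v} T] [Preadditive T] [Limits.HasZeroObject T]
    [HasShift T ℤ] [∀ n : ℤ, (shiftFunctor T n).Additive] [Pretriangulated T]
    [IsTriangulated T] [MonoidalCategory T] [SymmetricCategory T]
    [∀ X : T, (tensorLeft X).CommShift ℤ] [∀ X : T, (tensorLeft X).IsTriangulated]
    [IsIdempotentComplete T] (hrig : IsRigid T) (hconn : ConnectedUnit T)
    {I : Type w'} {F : I → Type w} [∀ i, Field (F i)] [∀ i, CharZero (F i)]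
    (R : ∀ i, Realization T (F i)) (o : I) (P : ObjectProperty T) (hP1 : P (𝟙_ T))
    (hPt : ∀ A B : T, P A → P B → P (A ⊗ B))
    (hP0 : ∀ A : T, P A → (R o).ConcentratedIn 0 A)
    (hgen : ObjectProperty.IsClassicalTriangulatedGenerator fun G : T =>
      ∃ A B B' : T, P A ∧ P B ∧ Nonempty (ExactPairing B B') ∧ Nonempty (G ≅ A ⊗ B'))
    (hcom : ∀ i, (R o).CommonGen (R i))
    {T' : Type u} [Category.{v} T'] [Preadditive T'] [Limits.HasZeroObject T']
    [HasShift T' ℤ] [∀ n : ℤ, (shiftFunctor T' n).Additive] [Pretriangulated T']
    [IsTriangulated T'] [MonoidalCategory T'] [SymmetricCategory T']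
    [∀ X : T', (tensorLeft X).CommShift ℤ] [∀ X : T', (tensorLeft X).IsTriangulated]
    (hrig' : IsRigid T') (hconn' : ConnectedUnit T') (R' : Realization T' (F o))
    (t' : TStructure T') (hnd' : Nondegenerate t') (ht' : TensorCompatible t')
    (hR' : R'.TExact t') (hcov : Covered (R o) R') :
    ∃ t : TStructure T, Nondegenerate t ∧ TensorCompatible t ∧ ∀ i, (R i).TExact t := by
  have h := (criterion hrig hconn R o P hP1 hPt hP0 hgen).out 1 0
  exact h.1 ⟨conservative_of_covered hcov
      (Realization.conservative_of_exact hnd' ht' hrig' hconn' hR'),
      negVanishing_of_covered hcov hnd' ht' hrig' hconn' hR' hP0,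
      faithfulOn_of_covered hcov hnd' ht' hrig' hconn' hR' hP0, hcom⟩

end Pool.Agent.Lib.MP_6d0ce9_ag.Old.Descent
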