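import Pool.Agent.Lib.MP_6d0ce9_ag.Bdd

/-!
# A characterisation of the exactness of a realisation by exterior powers

`T` is a rigid tensor triangulated category with connected unit, for instance the category
of constructible motives over a field of any characteristic with rational coefficients.
-/

universe w v u

open CategoryTheory MonoidalCategory Pretriangulated Triangulated
open Pool.Agent.Lib.MotT

namespace Pool.Agent.Lib.MP_6d0ce9_ag.Old.Intrinsic

/-- Let `t` be a non-degenerate tensor compatible t-structure and `R` a realisation over a
field of characteristic zero. Then `R` is t-exact if and only if `T` is the thick triangulated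
subcategory generated by the objects `G` of the heart of `t` such that some exterior power of
`G` vanishes and `R(G)` is concentrated in degree `0`. -/
theorem result {T : Type u} [Category.{v} T] [Preadditive T] [Limits.HasZeroObject T]
    [HasShift T ℤ] [∀ n : ℤ, (shiftFunctor T n).Additive] [Pretriangulated T]
    [IsTriangulated T] [MonoidalCategory T] [SymmetricCategory T]
    [∀ X : T, (tensorLeft X).CommShift ℤ] [∀ X : T, (tensorLeft X).IsTriangulated]
    (hrig : IsRigid T) (hconn : ConnectedUnit T)
    (t : TStructure T) (hnd : Nondegenerate t) (ht : TensorCompatible t)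
    {F : Type w} [Field F] [CharZero F] (R : Realization T F) :
    R.TExact t ↔
      ObjectProperty.IsClassicalTriangulatedGenerator
        (fun G : T => t.heart G ∧ (∃ n : ℕ, ExtPowerVanishes G n) ∧ R.ConcentratedIn 0 G) := by
  constructor
  · intro hR
    exact Realization.generates_of_exact hnd ht hrig hconn hR fun X hX =>
      ⟨hX, Realization.extPower_of_heart hnd ht hrig hconn hR hX,
        fun i hi => Realization.van_heart hR hX hi⟩
  · intro hgen
    refine R.texact_of_gen ht ?_
    have hle : (fun G : T => t.heart G ∧ (∃ n : ℕ, ExtPowerVanishes G n) ∧
        R.ConcentratedIn 0 G) ≤ Sorting.anyOf (R.DD t) := by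
      rintro G ⟨h1, h2, h3⟩
      exact ⟨0, (R.DD_zero_iff t G).2 ⟨h1, h3, h2⟩⟩
    rw [ObjectProperty.isClassicalTriangulatedGenerator_iff, eq_top_iff] at hgen ⊢
    exact hgen.trans (ObjectProperty.monotone_triangEnvelope hle)

end Pool.Agent.Lib.MP_6d0ce9_ag.Old.Intrinsic
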