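import Pool.Agent.Lib.MP_6d0ce9_ag.NumConv
import Pool.Agent.Lib.MP_6d0ce9_ag.TTDefs

/-!
# The motivic t-structure in positive characteristic and cycles over finite fields

Example to keep in mind: `T₀` is the category of constructible motives with rational coefficients
over a finite field, and `T` the one over an arbitrary extension `K` of this finite field.
-/

universe w w' v u

open CategoryTheory MonoidalCategory Pretriangulated Triangulated
open Pool.Agent.Lib.MotT

namespace Pool.Agent.Results.MP_6d0ce9_ag.PositiveChar

/-- Let `T` and `T₀` be rigid tensor triangulated categories with connected units and split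
idempotents. Let `R i` be realisations of `T` over fields of characteristic zero such that for all
`i` the objects concentrated in one and the same degree for `R o` and `R i` generate `T`. Let
`R₀` be a realisation of `T₀` over the same field as `R o`, and let `S` be a class of objects of
`T₀` with the properties of the class of smooth projective motives and with a Frobenius
endomorphism. Suppose that there is a faithful base change functor from `T₀` to `T` compatible
with shifts, unit objects and with `R₀` and `R o`, and that the morphisms from the unit object of
`T` spread out to lisse objects of models over `T₀`. Then `T` has a non-degenerate tensor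
compatible t-structure for which all the `R i` are t-exact if and only if `S` satisfies Parshin's
conjecture and the equality of rational and numerical equivalence. -/
theorem result {T : Type u} [Category.{v} T] [Preadditive T] [Limits.HasZeroObject T]
    [HasShift T ℤ] [∀ n : ℤ, (shiftFunctor T n).Additive] [Pretriangulated T]
    [MonoidalCategory T] [SymmetricCategory T] [RigidTT T]
    {I : Type w'} {F : I → Type w} [∀ i, Field (F i)] [∀ i, CharZero (F i)]
    (R : ∀ i, Realization T (F i)) (o : I) (hcom : ∀ i, (R o).CommonGen (R i))
    {T₀ : Type u} [Category.{v} T₀] [Preadditive T₀] [Limits.HasZeroObject T₀]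
    [HasShift T₀ ℤ] [∀ n : ℤ, (shiftFunctor T₀ n).Additive] [Pretriangulated T₀]
    [MonoidalCategory T₀] [SymmetricCategory T₀] [RigidTT T₀]
    (R₀ : Realization T₀ (F o)) (S : ObjectProperty T₀) (hS : IsChowClass S)
    (Fr : Frobenius R₀ S) (bc : BaseChange R₀ (R o)) (hs : SpreadsOut (R o) R₀) :
    (∃ t : TStructure T, Nondegenerate t ∧ TensorCompatible t ∧ ∀ i, (R i).TExact t) ↔
      Parshin S ∧ RatEqNum S := by
  have := RigidTT.octahedron (T := T)
  let _ := RigidTT.commShift (T := T)
  have := RigidTT.exact_left (T := T)
  have := RigidTT.split (T := T)
  have hrig := RigidTT.rigid (T := T)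
  have hconn := RigidTT.connected (T := T)
  have := RigidTT.octahedron (T := T₀)
  let _ := RigidTT.commShift (T := T₀)
  have := RigidTT.exact_left (T := T₀)
  have := RigidTT.split (T := T₀)
  have := bc.comm
  have := bc.preservesZero
  have := bc.faithful
  constructor
  · rintro ⟨t, hnd, ht, hR⟩
    have hcons := Realization.conservative_of_exact hnd ht hrig hconn (hR o)
    exact parshin_ratEqNum (RigidTT.rigid (T := T₀))
      (conservative_of_covered (covered_of_baseChange bc.fn bc.iso) hcons)
      (injectiveOnPure_of_baseChange hnd ht hrig hconn (hR o) bc.fn bc.iso)
      (nilpotent_of_baseChange hnd ht hrig hconn (hR o) bc.fn bc.iso) Fr hS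
  · rintro ⟨hp, hn⟩
    exact exists_t_of_inj hrig hconn R o hcom
      (Realization.injectiveOnPure_of_coconnective
        (Realization.injectiveOnCoconnective_of_spreadsOut hs
          (fun _ _ f hf => injective_of_ratEqNum hS hp hn f hf)))

end Pool.Agent.Results.MP_6d0ce9_ag.PositiveChar
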