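import Pool.Agent.Lib.MP_6d0ce9_ag.Spread
import Pool.Agent.Lib.MP_6d0ce9_ag.TTDefs

/-!
# Reduction of the existence of the motivic t-structure to the prime field

Example to keep in mind: `T` is the category of constructible motives with rational coefficients
over an arbitrary field `K`, and `T₀` the one over its prime field (or any other subfield).
-/

universe w w' v u

open CategoryTheory MonoidalCategory Pretriangulated Triangulated
open Pool.Agent.Lib.MotT

namespace Pool.Agent.Lib.MP_6d0ce9_ag.Old.PrimeField

/-- Let `T` and `T₀` be rigid tensor triangulated categories with connected units and split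
idempotents. Let `R i` be realisations of `T` over fields of characteristic zero such that for all
`i` the objects concentrated in one and the same degree for `R o` and `R i` generate `T`. Let
`R₀` be a realisation of `T₀` over the same field as `R o` such that the objects concentrated in
one degree generate `T₀`. Suppose that there is a faithful base change functor from `T₀` to `T`
compatible with shifts, unit objects and with `R₀` and `R o`, and that the morphisms from the unit
object of `T` spread out to lisse objects of models over `T₀`. Then the following are equivalent.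

1. `T` has a non-degenerate tensor compatible t-structure for which all the `R i` are t-exact.
2. `T₀` has a non-degenerate tensor compatible t-structure for which `R₀` is t-exact.
3. For every object `M` of `T₀` whose cohomology for `R₀` vanishes in negative degrees every
morphism `𝟙 ⟶ M` which induces zero on `H^0` is zero. -/
theorem result {T : Type u} [Category.{v} T] [Preadditive T] [Limits.HasZeroObject T]
    [HasShift T ℤ] [∀ n : ℤ, (shiftFunctor T n).Additive] [Pretriangulated T]
    [MonoidalCategory T] [SymmetricCategory T] [RigidTT T]
    {I : Type w'} {F : I → Type w} [∀ i, Field (F i)] [∀ i, CharZero (F i)]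
    (R : ∀ i, Realization T (F i)) (o : I) (hcom : ∀ i, (R o).CommonGen (R i))
    {T₀ : Type u} [Category.{v} T₀] [Preadditive T₀] [Limits.HasZeroObject T₀]
    [HasShift T₀ ℤ] [∀ n : ℤ, (shiftFunctor T₀ n).Additive] [Pretriangulated T₀]
    [MonoidalCategory T₀] [SymmetricCategory T₀] [RigidTT T₀]
    (R₀ : Realization T₀ (F o)) (hcom₀ : R₀.CommonGen R₀)
    (bc : BaseChange R₀ (R o)) (hs : SpreadsOut (R o) R₀) :
    List.TFAE [
      ∃ t : TStructure T, Nondegenerate t ∧ TensorCompatible t ∧ ∀ i, (R i).TExact t,
      ∃ t₀ : TStructure T₀, Nondegenerate t₀ ∧ TensorCompatible t₀ ∧ R₀.TExact t₀,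
      R₀.InjectiveOnCoconnective] := by
  have := RigidTT.octahedron (T := T)
  let _ := RigidTT.commShift (T := T)
  have := RigidTT.exact_left (T := T)
  have := RigidTT.split (T := T)
  have hrig := RigidTT.rigid (T := T)
  have hconn := RigidTT.connected (T := T)
  have := RigidTT.octahedron (T := T₀)
  let _ := RigidTT.commShift (T := T₀)
  have := RigidTT.exact_left (T := T₀)
  have := RigidTT.split (T := T₀)
  have hrig₀ := RigidTT.rigid (T := T₀)
  have hconn₀ := RigidTT.connected (T := T₀)
  have := bc.comm
  have := bc.preservesZero
  have := bc.faithful
  tfae_have 1 → 3 := by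
    rintro ⟨t, hnd, ht, hR⟩
    exact injectiveOnCoconnective_of_baseChange bc.fn bc.iso bc.unitIso
      (Realization.injectiveOnCoconnective_of_exact hnd ht hrig hconn (hR o))
  tfae_have 3 → 1 := fun h => exists_t_of_inj hrig hconn R o hcom
    (Realization.injectiveOnPure_of_coconnective
      (Realization.injectiveOnCoconnective_of_spreadsOut hs h))
  tfae_have 2 → 3 := by
    rintro ⟨t, hnd, ht, hR⟩
    exact Realization.injectiveOnCoconnective_of_exact hnd ht hrig₀ hconn₀ hR
  tfae_have 3 → 2 := by
    intro h
    obtain ⟨t, h1, h2, h3⟩ := exists_t_of_inj hrig₀ hconn₀ (fun _ : Unit => R₀) ()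
      (fun _ => hcom₀) (Realization.injectiveOnPure_of_coconnective h)
    exact ⟨t, h1, h2, h3 ()⟩
  tfae_finish

end Pool.Agent.Lib.MP_6d0ce9_ag.Old.PrimeField
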